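import Pool.Agent.Helper3_Blocks.Upper
import Pool.Agent.Helper3_Blocks.Lower

/-!
# MP_0e5d84_co: the equality of size functions fails for `q = 4`, `k = 1`, `n = 3`

`h(M(1;4); 3) = 8`, whereas `EX(S_1(4)) ∩ L(4)` contains the nine-point affine plane `AG(2,3)`
(the Hermitian curve of `PG(2,4)`), which is a tangential 1-block over `GF(4)` but is not
supersolvable.
-/

open Pool.Agent.Blocks

namespace Pool.Agent.Results.MP_0e5d84_co.SizeFunctionsDiffer

/-- For every field `F` with four elements, `h(M(1; F); 3) = 8` and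
`9 ≤ h(EX(S_1(F)) ∩ L(F); 3)`. -/
theorem result (F : Type) [Field F] [Fintype F] (hF : Fintype.card F = 4) :
    sizeFn (fun M => InM F 1 M) 3 = 8 ∧ 9 ≤ sizeFn (fun M => InEXS F 1 M) 3 := by
  refine ⟨le_antisymm ?_ ?_, ?_⟩
  · apply sSup_le
    rintro m ⟨α, M, hM, hr, rfl⟩
    exact upper hF M hM hr
  · obtain ⟨α, M, hM, hr, hc⟩ := lower8 F hF
    exact le_sSup ⟨α, M, hM, hr, hc⟩
  · obtain ⟨α, M, hM, hr, hc⟩ := lower F hF
    exact le_sSup ⟨α, M, hM, hr, hc⟩

end Pool.Agent.Results.MP_0e5d84_co.SizeFunctionsDiffer
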